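import Pool.Agent.K3h56.E2.Stm
import Pool.Agent.K3h30.RS.Act
import Pool.Agent.R426.QC.Ep
import Pool.Agent.H484R2.Zeta

/-! E2 project (helper56, MP_dd9835_nt), brick ZPROD (helper93). -/

set_option autoImplicit false

open NumberField IsDedekindDomain Filter Topology

noncomputable section

namespace Pool.Agent.K3h93.E2

open Pool.Agent.K3h30.RS Pool.Agent.K3h56.E2 Pool.Agent.R426.QC

section zeta

variable (K : Type) [Field K] [NumberField K]

open Classical in
/-- `N I ^ (-s)`, zero at the zero ideal -/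
def fI (s : ℂ) (I : Ideal (𝓞 K)) : ℂ := if I = ⊥ then 0 else (Ideal.absNorm I : ℂ) ^ (-s)

theorem hasSum_fI {s : ℂ} (hs : 1 < s.re) : HasSum (fI K s) (dedekindZeta K s) := by
  have h1 := Pool.Agent.H484R2.hasSum_ideals K hs
  rw [← Pool.Agent.H484R2.zeta_eq K hs] at h1
  have h2 : Function.support (fI K s) ⊆ {I | I ≠ ⊥} := by
    intro I h
    rw [Function.mem_support] at h
    intro h0
    exact h (if_pos h0)
  rw [← hasSum_subtype_iff_of_support_subset h2]
  have h3 : (fI K s ∘ ((↑) : {I : Ideal (𝓞 K) | I ≠ ⊥} → Ideal (𝓞 K))) =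
      fun I : Pool.Agent.H484R2.NZI K => (Ideal.absNorm I.1 : ℂ) ^ (-s) := by
    funext I
    exact if_neg I.2
  rw [h3]
  exact h1

theorem cmi {s : ℂ} (hs : 1 < s.re) : CMI (fI K s) where
  zero := if_pos rfl
  one := by
    unfold fI
    rw [if_neg top_ne_bot, Ideal.absNorm_top, Nat.cast_one, Complex.one_cpow]
  mul := by
    intro I J
    unfold fI
    by_cases hI : I = ⊥
    · rw [if_pos hI, zero_mul, if_pos]
      rw [hI]
      exact Ideal.bot_mul J
    · by_cases hJ : J = ⊥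
      · rw [if_pos hJ, mul_zero, if_pos]
        rw [hJ]
        exact Ideal.mul_bot I
      · have hIJ : I * J ≠ ⊥ := mul_ne_zero hI hJ
        rw [if_neg hI, if_neg hJ, if_neg hIJ, map_mul, Nat.cast_mul,
          Complex.natCast_mul_natCast_cpow]
  summ := (hasSum_fI K hs).summable

theorem fI_prime (s : ℂ) (v : HeightOneSpectrum (𝓞 K)) :
    fI K s v.asIdeal = (Ideal.absNorm v.asIdeal : ℂ) ^ (-s) := if_neg v.ne_bot

/-- the Euler product -/
theorem euler {s : ℂ} (hs : 1 < s.re) :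
    HasProd (fun v : HeightOneSpectrum (𝓞 K) => (1 - (Ideal.absNorm v.asIdeal : ℂ) ^ (-s))⁻¹)
      (dedekindZeta K s) := by
  have h := hasProdI (cmi K hs)
  rw [(hasSum_fI K hs).tsum_eq] at h
  simpa only [fI_prime] using h

theorem summable_prime {s : ℂ} (hs : 1 < s.re) :
    Summable fun v : HeightOneSpectrum (𝓞 K) => (Ideal.absNorm v.asIdeal : ℂ) ^ (-s) := by
  have h := (hasSum_fI K hs).summable.comp_injective
    (i := fun v : HeightOneSpectrum (𝓞 K) => v.asIdeal) fun v w h => HeightOneSpectrum.ext h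
  refine h.congr fun v => ?_
  exact fI_prime K s v

theorem one_sub_ne {s : ℂ} (hs : 1 < s.re) (v : HeightOneSpectrum (𝓞 K)) :
    (1 : ℂ) - (Ideal.absNorm v.asIdeal : ℂ) ^ (-s) ≠ 0 := by
  have h1 : 1 < Ideal.absNorm v.asIdeal := by
    have h0 : Ideal.absNorm v.asIdeal ≠ 0 := by
      rw [Ne, Ideal.absNorm_eq_zero_iff]
      exact v.ne_bot
    have h2 : Ideal.absNorm v.asIdeal ≠ 1 := by
      rw [Ne, Ideal.absNorm_eq_one_iff]
      exact v.isPrime.ne_top
    omega
  have h2 : ‖(Ideal.absNorm v.asIdeal : ℂ) ^ (-s)‖ < 1 := by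
    rw [Complex.norm_natCast_cpow_of_pos (zero_lt_one.trans h1), Complex.neg_re]
    exact Real.rpow_lt_one_of_one_lt_of_neg (by exact_mod_cast h1) (by linarith)
  intro h
  rw [← sub_eq_zero.1 h, norm_one] at h2
  exact lt_irrefl _ h2

theorem euler_inv {s : ℂ} (hs : 1 < s.re) :
    HasProd (fun v : HeightOneSpectrum (𝓞 K) => (1 : ℂ) - (Ideal.absNorm v.asIdeal : ℂ) ^ (-s))
      (dedekindZeta K s)⁻¹ ∧ dedekindZeta K s ≠ 0 := by
  have h1 : Multipliable fun v : HeightOneSpectrum (𝓞 K) =>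
      (1 : ℂ) + -(Ideal.absNorm v.asIdeal : ℂ) ^ (-s) := by
    refine Complex.multipliable_one_add_of_summable ?_
    exact (summable_prime K hs).neg
  have h2 : HasProd (fun v : HeightOneSpectrum (𝓞 K) =>
      (1 : ℂ) - (Ideal.absNorm v.asIdeal : ℂ) ^ (-s))
      (∏' v : HeightOneSpectrum (𝓞 K), ((1 : ℂ) + -(Ideal.absNorm v.asIdeal : ℂ) ^ (-s))) := by
    have h3 := h1.hasProd
    simpa only [sub_eq_add_neg] using h3
  have h3 := (euler K hs).mul h2
  have h4 : (fun v : HeightOneSpectrum (𝓞 K) => (1 - (Ideal.absNorm v.asIdeal : ℂ) ^ (-s))⁻¹ *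
      (1 - (Ideal.absNorm v.asIdeal : ℂ) ^ (-s))) = fun _ => 1 := by
    funext v
    exact inv_mul_cancel₀ (one_sub_ne K hs v)
  rw [h4] at h3
  have h5 := h3.unique hasProd_one
  have h6 : dedekindZeta K s ≠ 0 := left_ne_zero_of_mul_eq_one h5
  refine ⟨?_, h6⟩
  rw [eq_inv_of_mul_eq_one_right h5] at h2
  exact h2

end zeta

theorem fiber {X : Type*} (p : X → Prop) (S : Finset X) (hS : ∀ x, p x ↔ x ∈ S) (g : X → ℂ) :
    HasProd (fun x : {x // p x} => g x.1) (∏ x ∈ S, g x) := by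
  obtain rfl : p = fun x => x ∈ S := funext fun x => propext (hS x)
  exact S.hasProd g

theorem t_ZPROD (hL : S_LOC) : S_ZPROD := by
  classical
  intro F K _ _ _ _ _ τ hq s hs
  obtain ⟨hinv, hne⟩ := euler_inv F hs
  refine ⟨hne, ?_⟩
  have hab : ∀ P : HeightOneSpectrum (𝓞 K), ∃ v : HeightOneSpectrum (𝓞 F), Above {v} P :=
    fun P => exists_above P
  choose f hf using hab
  have hfv : ∀ (P : HeightOneSpectrum (𝓞 K)) (v : HeightOneSpectrum (𝓞 F)),
      f P = v ↔ Above {v} P := by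
    intro P v
    constructor
    · rintro rfl
      exact hf P
    · intro h
      have h1 := above_singleton.1 h
      have h2 := above_singleton.1 (hf P)
      exact HeightOneSpectrum.ext (by rw [← h2, h1])
  have h1 := (Equiv.sigmaFiberEquiv f).hasProd_iff.2 (euler K hs)
  have h2 : HasProd (fun v : HeightOneSpectrum (𝓞 F) =>
      (1 - (Ideal.absNorm v.asIdeal : ℂ) ^ (-s))⁻¹ *
      (1 - ((loc K v : ℤ) : ℂ) * (Ideal.absNorm v.asIdeal : ℂ) ^ (-s))⁻¹) (dedekindZeta K s) := by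
    refine h1.sigma fun v => ?_
    have h3 : ∀ S : Finset (HeightOneSpectrum (𝓞 K)), (∀ P, Above {v} P ↔ P ∈ S) →
        HasProd (fun c : {P // f P = v} => ((fun v : HeightOneSpectrum (𝓞 K) =>
          (1 - (Ideal.absNorm v.asIdeal : ℂ) ^ (-s))⁻¹) ∘ (Equiv.sigmaFiberEquiv f)) ⟨v, c⟩)
          (∏ P ∈ S, (1 - (Ideal.absNorm P.asIdeal : ℂ) ^ (-s))⁻¹) := by
      intro S hS
      exact fiber (fun P => f P = v) S (fun P => (hfv P v).trans (hS P)) _
    obtain ⟨a1, a2⟩ := hL F K τ hq v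
    by_cases hv : loc K v = 1
    · obtain ⟨P, P', hPP, hQ, -, -, hN, hN'⟩ := a1 hv
      have h4 := h3 {P, P'} fun Q => by rw [hQ Q]; simp
      rw [Finset.prod_pair hPP, hN, hN'] at h4
      rw [hv, Int.cast_one, one_mul]
      exact h4
    · obtain ⟨P, hQ, -, h5⟩ := a2 hv
      have h4 := h3 {P} fun Q => by rw [hQ Q]; simp
      rw [Finset.prod_singleton] at h4
      rcases h5 with ⟨hv', -, hN⟩ | ⟨hv', -, hN⟩
      · rw [hN] at h4
        have h6 : (((Ideal.absNorm v.asIdeal ^ 2 : ℕ) : ℂ)) ^ (-s) =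
            (Ideal.absNorm v.asIdeal : ℂ) ^ (-s) * (Ideal.absNorm v.asIdeal : ℂ) ^ (-s) := by
          rw [pow_two, Nat.cast_mul, Complex.natCast_mul_natCast_cpow]
        rw [h6] at h4
        rw [hv', ← mul_inv]
        have h7 : (1 - (Ideal.absNorm v.asIdeal : ℂ) ^ (-s)) *
            (1 - ((-1 : ℤ) : ℂ) * (Ideal.absNorm v.asIdeal : ℂ) ^ (-s)) =
            1 - (Ideal.absNorm v.asIdeal : ℂ) ^ (-s) * (Ideal.absNorm v.asIdeal : ℂ) ^ (-s) := by
          push_cast
          ring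
        rw [h7]
        exact h4
      · rw [hN] at h4
        rw [hv', Int.cast_zero, zero_mul, sub_zero, inv_one, mul_one]
        exact h4
  have h8 := h2.mul hinv
  rw [div_eq_mul_inv]
  refine h8.congr_fun fun v => ?_
  have h9 := one_sub_ne F hs v
  rw [mul_comm (_ * _) (1 - _), ← mul_assoc, mul_inv_cancel₀ h9, one_mul]

end Pool.Agent.K3h93.E2
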